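import Pool.Agent.Lib.helper3.BishopE

set_option autoImplicit false
open MeasureTheory H3Bis
open scoped ENNReal

namespace Pool.Agent.Results.MP_71b3bb_an.Counterexample

/-- There are a compact metric space `S`, an algebra `A` satisfying the standing hypotheses and an
extremal measure `μ` such that `L^∞(μ)/B` is not reflexive, where `B` is the weak-star closure of
`{f + conj g : f, g ∈ A}`. -/
theorem result :
    ∃ (S : Type) (_ : MetricSpace S) (_ : CompactSpace S) (_ : MeasurableSpace S)
      (_ : BorelSpace S) (A : Subalgebra ℂ C(S, ℂ)) (μ : FiniteMeasure S),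
      Bishop A ∧ Extremal A μ ∧ NonReflexiveQuotient (wcl μ (clsSum A μ)) :=
  ⟨SS, inferInstance, inferInstance, inferInstance, inferInstance, AA, mu1, bishop_AA,
    extremal_mu1, BB, BB_eq, not_refl_BB⟩

end Pool.Agent.Results.MP_71b3bb_an.Counterexample
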